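import Pool.Agent.helper14.AV.Spec

set_option autoImplicit false

namespace Pool.Agent.helper14.AV

theorem TRU : TRU_stmt := by
  classical
  intro V T c c1 d h p hT hp c' hc' hcc'
  have hpp : p.IsPath := ((SimpleGraph.Walk.cons_isPath_iff h p).1 hp).1
  have hcp : c ∉ p.support := ((SimpleGraph.Walk.cons_isPath_iff h p).1 hp).2
  obtain ⟨q, hq⟩ : ∃ q, q = p.takeUntil c' hc' := ⟨_, rfl⟩
  have hq1 : q.IsPath := by
    rw [hq]
    exact hpp.takeUntil hc'
  have hq2 : (SimpleGraph.Walk.cons h q).IsPath := by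
    rw [SimpleGraph.Walk.cons_isPath_iff]
    refine ⟨hq1, fun hc => hcp ?_⟩
    rw [hq] at hc
    exact p.support_takeUntil_subset hc' hc
  have hq3 : (SimpleGraph.Walk.cons hcc' SimpleGraph.Walk.nil).IsPath := by
    rw [SimpleGraph.Walk.cons_isPath_iff]
    refine ⟨SimpleGraph.Walk.IsPath.nil, ?_⟩
    rw [SimpleGraph.Walk.support_nil, List.mem_singleton]
    exact hcc'.ne
  have h1 : (⟨_, hq2⟩ : T.Path c c') = ⟨_, hq3⟩ := hT.path_unique _ _
  have h2 := congrArg (fun r : T.Path c c' => r.1.length) h1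
  have h3 : q.length = 0 := by
    have h4 : q.length + 1 = 0 + 1 := h2
    omega
  exact (SimpleGraph.Walk.eq_of_length_eq_zero h3).symm

end Pool.Agent.helper14.AV
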